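import Pool.Agent.T4h70.LB.Par
import Pool.Agent.R321.RD5

/-!
# Pairs of characters of the same modulus, shifts depending on the first character: the mixed terms
-/

set_option autoImplicit false
set_option maxHeartbeats 4000000

open Complex Filter Topology Set MeasureTheory

namespace Pool.Agent.T4h70.LC

open H385
open Pool.Agent.R321.RC (cf cf_norm Pf_add Pf_sum Pf_summable sps sps_norm_le WW_eq sum_mult PF mem_PF)
open Pool.Agent.R321.RD (IB PB wB wB_nonneg fs sn avgB avgB_eq avgB_fst avgB_swap avgB_nonneg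
  mem_PB sum_wB PF_card apt apt_nonneg apt_sum phs_lower_real)
open Pool.Agent.T4h70.LI (ph ph_norm ph_zero vm_ph sh)
open Pool.Agent.T4h70.LB (cp cp_norm an bn Sf Sf_comb win_main Ep Ep_nonneg Ep_avg tails_sq trunc_ms
  sum_sq_int)

/-- the pointwise bound -/
theorem Pf_modP (ε : ℝ) (hε : 0 < ε) (hε1 : ε ≤ 1) : ∃ C : ℝ, 0 < C ∧ ∀ (q : ℕ), 0 < q →
    ∀ (T u b0 : ℝ), 1 ≤ T → 0 ≤ u →
      ∫ t : ℝ, ‖∑ χ ∈ PF q, Pf (cp ⟨q, χ⟩ b0) T u t‖ ^ 2 ≤
        C * ((q.divisors.card : ℝ) ^ 2 * (T * Real.exp ((1 + 4 * ε) * u))) := by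
  obtain ⟨C1, hC1, hap⟩ := apt_sum ε hε hε1
  obtain ⟨C3, hC3, hwt⟩ := wt_sq_int
  refine ⟨C1 ^ 2 * (1 + C3), by positivity, ?_⟩
  intro q hq T u b0 hT hu
  have hT0 : 0 ≤ T := by linarith
  have hq0 : (0 : ℝ) < q := by exact_mod_cast hq
  have e1 : ∀ t, ∑ χ ∈ PF q, Pf (cp ⟨q, χ⟩ b0) T u t =
      Pf (fun n => sps q n * (ArithmeticFunction.vonMangoldt n : ℂ) * ph b0 n) T u t := by
    intro t
    have h := Pf_sum (PF q) (fun _ => 1) (fun χ => cp ⟨q, χ⟩ b0) (fun χ _ n => cp_norm ⟨q, χ⟩ b0 n) T u t hT0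
    simp only [Complex.ofReal_one, one_mul] at h
    rw [← h]
    congr 1
    funext n
    unfold sps cp cf
    rw [Finset.sum_mul, Finset.sum_mul]
  simp_rw [e1]
  set b : ℕ → ℂ := fun n => sps q n * (ArithmeticFunction.vonMangoldt n : ℂ) * ph b0 n with hb
  set G : ℕ → ℝ := fun n => ∑ d ∈ q.divisors, (d : ℝ) * apt d u n with hG
  have hGs : Summable G := summable_sum fun d hd =>
    ((hap d u (Nat.pos_of_mem_divisors hd)).1).mul_left _
  have hGle : ∑' n, G n ≤ C1 * (q.divisors.card : ℝ) * Real.exp ((1 / 2 + 2 * ε) * u) := by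
    rw [hG, Summable.tsum_finsetSum (fun d hd =>
      ((hap d u (Nat.pos_of_mem_divisors hd)).1).mul_left _)]
    have h1 : ∀ d ∈ q.divisors, ∑' n, (d : ℝ) * apt d u n ≤
        C1 * Real.exp ((1 / 2 + 2 * ε) * u) := by
      intro d hd
      have hd' := Nat.pos_of_mem_divisors hd
      have hd0 : (0 : ℝ) < d := by exact_mod_cast hd'
      rw [tsum_mul_left]
      calc (d : ℝ) * ∑' n, apt d u n ≤ d * (C1 / d * Real.exp ((1 / 2 + 2 * ε) * u)) :=
            mul_le_mul_of_nonneg_left (hap d u hd').2 hd0.le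
        _ = _ := by field_simp
    refine (Finset.sum_le_sum h1).trans (le_of_eq ?_)
    rw [Finset.sum_const, nsmul_eq_mul]
    ring
  have hterm : ∀ (t : ℝ) (n : ℕ), ‖b n * ((Real.sqrt n : ℂ)⁻¹ * bt T u t (Real.log n))‖ ≤
      wt T t * G n := by
    intro t n
    have hw0 := wt_nonneg T t hT0
    have hL : 0 ≤ ArithmeticFunction.vonMangoldt n := ArithmeticFunction.vonMangoldt_nonneg
    have hG0 : 0 ≤ G n := Finset.sum_nonneg fun d _ => mul_nonneg (Nat.cast_nonneg _) (apt_nonneg _ _ _)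
    rcases lt_or_ge n 2 with hn | hn
    · have h0 : ArithmeticFunction.vonMangoldt n = 0 := by
        interval_cases n
        · simp
        · simp
      simp only [hb]
      rw [h0]
      simp only [Complex.ofReal_zero, mul_zero, zero_mul, norm_zero]
      positivity
    · rw [norm_mul, norm_mul ((Real.sqrt n : ℂ)⁻¹), norm_inv, Complex.norm_real, Real.norm_eq_abs,
        abs_of_nonneg (Real.sqrt_nonneg _)]
      have h1 := bt_norm T u t (Real.log n) hT0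
      have h3 : 1 / Real.sqrt (2 * Real.pi) ≤ 1 := by
        rw [div_le_one (by positivity), Real.one_le_sqrt]
        linarith [Real.pi_gt_three]
      have h4 : ‖bt T u t (Real.log n)‖ ≤ Real.exp (-(u - Real.log n) ^ 2 / 4) * wt T t := by
        refine h1.trans ?_
        refine mul_le_mul_of_nonneg_right ?_ hw0
        calc _ ≤ 1 * Real.exp (-(u - Real.log n) ^ 2 / 4) :=
              mul_le_mul_of_nonneg_right h3 (Real.exp_pos _).le
          _ = _ := one_mul _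
      have h5 : ‖b n‖ ≤ (∑ d ∈ q.divisors, (if d ∣ n - 1 then (d : ℝ) else 0)) *
          ArithmeticFunction.vonMangoldt n := by
        simp only [hb]
        rw [norm_mul, ph_norm b0 (by omega : 1 ≤ n), mul_one, norm_mul, Complex.norm_real,
          Real.norm_of_nonneg hL]
        refine mul_le_mul_of_nonneg_right ((sps_norm_le hq hn).trans (le_of_eq ?_)) hL
        rw [← Finset.sum_filter, ← Finset.sum_filter]
        refine Finset.sum_congr ?_ fun _ _ => rfl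
        ext d
        simp only [Finset.mem_filter, Nat.mem_divisors]
        constructor
        · rintro ⟨⟨h1, h2⟩, h3⟩
          exact ⟨⟨h3, hq.ne'⟩, h1⟩
        · rintro ⟨⟨h1, h2⟩, h3⟩
          exact ⟨⟨h3, by omega⟩, h1⟩
      have h6 : (∑ d ∈ q.divisors, (if d ∣ n - 1 then (d : ℝ) else 0)) *
          ArithmeticFunction.vonMangoldt n * ((Real.sqrt n)⁻¹ *
          (Real.exp (-(u - Real.log n) ^ 2 / 4) * wt T t)) = wt T t * G n := by
        simp only [hG]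
        rw [Finset.sum_mul, Finset.sum_mul, Finset.mul_sum]
        refine Finset.sum_congr rfl fun d _ => ?_
        unfold apt
        by_cases h : d ∣ n - 1
        · rw [if_pos h, if_pos ⟨hn, h⟩, div_eq_mul_inv]
          ring
        · rw [if_neg h, if_neg (fun h' => h h'.2)]
          ring
      rw [← h6]
      gcongr
  have hpt : ∀ t : ℝ, ‖Pf b T u t‖ ^ 2 ≤
      (C1 ^ 2 * ((q.divisors.card : ℝ) ^ 2 * Real.exp ((1 + 4 * ε) * u))) * (wt T t) ^ 2 := by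
    intro t
    have hw0 := wt_nonneg T t hT0
    have h1 : ‖Pf b T u t‖ ≤ wt T t * (C1 * (q.divisors.card : ℝ) *
        Real.exp ((1 / 2 + 2 * ε) * u)) := by
      unfold Pf
      have hs' := hGs.mul_left (wt T t)
      have hs'' : Summable (fun n : ℕ => ‖b n * ((Real.sqrt n : ℂ)⁻¹ * bt T u t (Real.log n))‖) :=
        Summable.of_nonneg_of_le (fun n => norm_nonneg _) (hterm t) hs'
      refine (norm_tsum_le_tsum_norm hs'').trans ?_
      refine (hs''.tsum_le_tsum (hterm t) hs').trans ?_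
      rw [tsum_mul_left]
      exact mul_le_mul_of_nonneg_left hGle hw0
    refine (pow_le_pow_left₀ (norm_nonneg _) h1 2).trans (le_of_eq ?_)
    have e1 : Real.exp ((1 + 4 * ε) * u) = (Real.exp ((1 / 2 + 2 * ε) * u)) ^ 2 := by
      rw [← Real.exp_nat_mul]
      congr 1
      push_cast
      ring
    rw [e1]
    ring
  obtain ⟨hwi, hwle⟩ := hwt T hT0
  calc ∫ t : ℝ, ‖Pf b T u t‖ ^ 2 ≤
      ∫ t : ℝ, (C1 ^ 2 * ((q.divisors.card : ℝ) ^ 2 * Real.exp ((1 + 4 * ε) * u))) * (wt T t) ^ 2 := by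
        refine integral_mono_of_nonneg (Filter.Eventually.of_forall fun t => sq_nonneg _)
          (hwi.const_mul _) (Filter.Eventually.of_forall hpt)
    _ = (C1 ^ 2 * ((q.divisors.card : ℝ) ^ 2 * Real.exp ((1 + 4 * ε) * u))) *
        ∫ t : ℝ, (wt T t) ^ 2 := integral_const_mul _ _
    _ ≤ (C1 ^ 2 * ((q.divisors.card : ℝ) ^ 2 * Real.exp ((1 + 4 * ε) * u))) * (T * (1 + C3)) := by
        refine mul_le_mul_of_nonneg_left (hwle.trans ?_) (by positivity)
        nlinarith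
    _ = _ := by ring


/-- the sum over the moduli -/
theorem cross_num (ε : ℝ) (hε : 0 < ε) (hε1 : ε ≤ 1 / 8) : ∃ C : ℝ, 0 < C ∧ ∀ (X Y : ℕ), 0 < X →
    ∀ (M : ℝ), 0 ≤ M →
      ∑ q ∈ Finset.Ioc X Y, (1 / (q : ℝ) ^ 2) * (1 / (phs q : ℝ)) *
        ((q.divisors.card : ℝ) ^ 2 * M) ≤ C * (M * (X : ℝ) ^ (-(2 - 4 * ε))) := by
  obtain ⟨C1, hC1, hdiv⟩ := Pool.Agent.H369R2.divisor_bound ε hε
  refine ⟨2 * C1 ^ 4, by positivity, ?_⟩
  intro X Y hX M hM
  have hX0 : (0 : ℝ) < X := by exact_mod_cast hX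
  have hterm : ∀ q ∈ Finset.Ioc X Y, (1 / (q : ℝ) ^ 2) * (1 / (phs q : ℝ)) *
        ((q.divisors.card : ℝ) ^ 2 * M) ≤
      (C1 ^ 4 * M * (X : ℝ) ^ (-(1 - 4 * ε))) *
        (if 1 ∣ q then ((1 : ℕ) : ℝ) / (q : ℝ) ^ 2 else 0) := by
    intro q hq
    rw [Finset.mem_Ioc] at hq
    have hq0 : 0 < q := by omega
    have hqr : (0 : ℝ) < q := by exact_mod_cast hq0
    have hqX : (X : ℝ) ≤ q := by exact_mod_cast hq.1.le
    rw [if_pos (one_dvd q), Nat.cast_one]
    by_cases h0 : phs q = 0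
    · rw [h0, Nat.cast_zero, div_zero, mul_zero, zero_mul]
      positivity
    · have h1 := phs_lower_real hq0 h0
      have h3 := hdiv q hq0
      have h4 : (q.divisors.card : ℝ) ^ 4 ≤ C1 ^ 4 * (q : ℝ) ^ (4 * ε) := by
        calc (q.divisors.card : ℝ) ^ 4 ≤ (C1 * (q : ℝ) ^ ε) ^ 4 :=
              pow_le_pow_left₀ (Nat.cast_nonneg _) h3 4
          _ = _ := by
              rw [mul_pow, ← Real.rpow_natCast ((q : ℝ) ^ ε) 4, ← Real.rpow_mul hqr.le]
              congr 2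
              push_cast
              ring
      have h5 : (q : ℝ) ^ (4 * ε) / q ≤ (X : ℝ) ^ (-(1 - 4 * ε)) := by
        have e1 : (q : ℝ) ^ (4 * ε) / q = (q : ℝ) ^ (-(1 - 4 * ε)) := by
          rw [div_eq_mul_inv, ← Real.rpow_neg_one, ← Real.rpow_add hqr]
          congr 1
          ring
        rw [e1]
        exact Real.rpow_le_rpow_of_nonpos hX0 hqX (by linarith)
      calc (1 / (q : ℝ) ^ 2) * (1 / (phs q : ℝ)) * ((q.divisors.card : ℝ) ^ 2 * M)
          ≤ (1 / (q : ℝ) ^ 2) * ((q.divisors.card : ℝ) ^ 2 / q) *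
            ((q.divisors.card : ℝ) ^ 2 * M) := by gcongr
        _ = (1 / (q : ℝ) ^ 2) * M * ((q.divisors.card : ℝ) ^ 4 / q) := by ring
        _ ≤ (1 / (q : ℝ) ^ 2) * M * (C1 ^ 4 * (q : ℝ) ^ (4 * ε) / q) := by gcongr
        _ = (1 / (q : ℝ) ^ 2) * (C1 ^ 4 * M) * ((q : ℝ) ^ (4 * ε) / q) := by ring
        _ ≤ (1 / (q : ℝ) ^ 2) * (C1 ^ 4 * M) * (X : ℝ) ^ (-(1 - 4 * ε)) := by gcongr
        _ = _ := by ring
  refine (Finset.sum_le_sum hterm).trans ?_
  rw [← Finset.mul_sum]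
  have h6 : ∑ q ∈ Finset.Ioc X Y, (if 1 ∣ q then ((1 : ℕ) : ℝ) / (q : ℝ) ^ 2 else 0) ≤ 2 / X := by
    rcases le_or_gt X Y with h | h
    · obtain ⟨k, rfl⟩ := Nat.exists_eq_add_of_le h
      refine (sum_mult 1 one_pos X hX k).trans ?_
      have : 0 ≤ 2 / (((1 : ℕ) : ℝ) * (((X + k) / 1 + 1 : ℕ) : ℝ)) := by positivity
      linarith
    · rw [Finset.Ioc_eq_empty (by omega), Finset.sum_empty]
      positivity
  refine (mul_le_mul_of_nonneg_left h6 (by positivity)).trans (le_of_eq ?_)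
  have e2 : (X : ℝ) ^ (-(2 - 4 * ε)) = (X : ℝ) ^ (-(1 - 4 * ε)) * (1 / X) := by
    rw [one_div, ← Real.rpow_neg_one, ← Real.rpow_add hX0]
    congr 1
    ring
  rw [e2]
  ring

/-- an elementary inequality -/
lemma sum_sq_le {ι : Type*} (S : Finset ι) (a : ℂ) (b : ι → ℂ) {s : ℝ} (hs : 0 < s)
    (hS : 0 < S.card) :
    ∑ i ∈ S, ‖a + b i‖ ^ 2 ≤ (1 + s) * (S.card : ℝ) * ‖a‖ ^ 2 + ∑ i ∈ S, ‖b i‖ ^ 2 +
      1 / (s * (S.card : ℝ)) * ‖∑ i ∈ S, b i‖ ^ 2 := by
  have hc : (0 : ℝ) < (S.card : ℝ) := by exact_mod_cast hS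
  have e : ∀ i, ‖a + b i‖ ^ 2 = ‖a‖ ^ 2 + ‖b i‖ ^ 2 + 2 * (star a * b i).re := by
    intro i
    rw [← Complex.normSq_eq_norm_sq, ← Complex.normSq_eq_norm_sq, ← Complex.normSq_eq_norm_sq,
      Complex.normSq_add]
    have : (a * (starRingEnd ℂ) (b i)).re = (star a * b i).re := by
      simp [Complex.mul_re]
    rw [this]
  have e2 : ∑ i ∈ S, (star a * b i).re = (star a * ∑ i ∈ S, b i).re := by
    rw [Finset.mul_sum, Complex.re_sum]
  simp_rw [e]
  rw [Finset.sum_add_distrib, Finset.sum_add_distrib, Finset.sum_const, nsmul_eq_mul,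
    ← Finset.mul_sum, e2]
  have h1 : (star a * ∑ i ∈ S, b i).re ≤ ‖a‖ * ‖∑ i ∈ S, b i‖ := by
    refine (Complex.re_le_norm _).trans (le_of_eq ?_)
    rw [norm_mul, norm_star]
  obtain ⟨x, hx⟩ : ∃ x, x = ‖a‖ := ⟨_, rfl⟩
  obtain ⟨y, hy⟩ : ∃ y, y = ‖∑ i ∈ S, b i‖ := ⟨_, rfl⟩
  obtain ⟨k, hk⟩ : ∃ k, k = s * (S.card : ℝ) := ⟨_, rfl⟩
  have hk0 : 0 < k := by rw [hk]; positivity
  rw [← hx, ← hy] at h1 ⊢
  rw [← hk]
  have h2 : 2 * (x * y) ≤ k * x ^ 2 + 1 / k * y ^ 2 := by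
    have h3 : 0 ≤ (k * x - y) ^ 2 / k := by positivity
    have h4 : (k * x - y) ^ 2 / k = k * x ^ 2 - 2 * (x * y) + 1 / k * y ^ 2 := by
      field_simp
      ring
    linarith
  have h5 : (1 + s) * (S.card : ℝ) * x ^ 2 = (S.card : ℝ) * x ^ 2 + k * x ^ 2 := by
    rw [hk]; ring
  rw [h5]
  linarith

end Pool.Agent.T4h70.LC
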