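import Pool.Agent.T4h70.LC.M1

/-!
# Pairs of characters of the same modulus, shifts depending on the first character: mean squares
-/

set_option autoImplicit false
set_option maxHeartbeats 4000000

open Complex Filter Topology Set MeasureTheory

namespace Pool.Agent.T4h70.LC

open H385
open Pool.Agent.R321.RC (cf cf_norm Pf_add Pf_sum Pf_summable WW_eq PF mem_PF primSet_eq)
open Pool.Agent.R321.RD (IB PB wB wB_nonneg fs sn avgB avgB_eq avgB_fst avgB_swap avgB_nonneg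
  mem_PB sum_wB PF_card)
open Pool.Agent.T4h70.LI (ph ph_norm ph_zero vm_ph sh)
open Pool.Agent.T4h70.LB (cp cp_norm an bn Sf Sf_comb win_main Ep Ep_nonneg Ep_avg tails_sq trunc_ms
  sum_sq_int)

/-- the bound for the mean square of one character, for all shifts up to `V0` -/
noncomputable def Bd (C4 : ℝ) (N : ℕ) (T u V0 s E : ℝ) (p : IX) : ℝ :=
  (1 + s) ^ 2 * (∫ t, ‖Sf N p (fun _ => 1) T u t‖ ^ 2) +
    (1 + s) * (1 + 1 / s) * Ep N T u V0 p + (1 + 1 / s) * (C4 * E)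

/-- one character -/
theorem one_char : ∃ C4 : ℝ, 1 ≤ C4 ∧ ∀ (N : ℕ) (p : IX) (a V0 T u G s : ℝ), 0 ≤ T → 0 ≤ u →
    0 ≤ G → u + G ≤ Real.log N → 0 < s → 0 ≤ a → a ≤ V0 →
    ∫ t, ‖Pf (cp p a) T u t‖ ^ 2 ≤ Bd C4 N T u V0 s (T * Real.exp (u - G ^ 2 / 4)) p := by
  obtain ⟨C4, hC4, h4⟩ := tails_sq
  refine ⟨C4, hC4, fun N p a V0 T u G s hT hu hG hN hs ha haV => ?_⟩
  obtain ⟨t1, t2⟩ := h4 N p a T u G hT hu hG hN
  obtain ⟨E, hE⟩ : ∃ E, E = T * Real.exp (u - G ^ 2 / 4) := ⟨_, rfl⟩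
  rw [← hE] at t2 ⊢
  obtain ⟨s1, s2⟩ := Sf_comb N p (ph a) T u hT
  have w1 := win_main N p T u hT ha haV hs
  have hle : ∀ t, ‖Pf (cp p a) T u t‖ ^ 2 ≤ (1 + s) * ‖Sf N p (ph a) T u t‖ ^ 2 +
      (1 + 1 / s) * ‖Pf (cp p a) T u t - Sf N p (ph a) T u t‖ ^ 2 := by
    intro t
    have h1 := FamLS.sq_add_le (Sf N p (ph a) T u t) (Pf (cp p a) T u t - Sf N p (ph a) T u t) s hs
    rw [add_sub_cancel] at h1
    exact h1
  have h2 := integral_mono (fa_Pf_int (cp_norm p a) T u hT)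
    ((s2.const_mul (1 + s)).add (t1.const_mul (1 + 1 / s))) hle
  refine h2.trans ?_
  have e : ∫ t, ((1 + s) * ‖Sf N p (ph a) T u t‖ ^ 2 +
      (1 + 1 / s) * ‖Pf (cp p a) T u t - Sf N p (ph a) T u t‖ ^ 2) =
      (1 + s) * (∫ t, ‖Sf N p (ph a) T u t‖ ^ 2) +
      (1 + 1 / s) * ∫ t, ‖Pf (cp p a) T u t - Sf N p (ph a) T u t‖ ^ 2 := by
    rw [integral_add (s2.const_mul (1 + s)) (t1.const_mul (1 + 1 / s)),
      integral_const_mul, integral_const_mul]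
  refine (le_of_eq e).trans ?_
  unfold Bd
  have k1 := mul_le_mul_of_nonneg_left w1 (by positivity : 0 ≤ 1 + s)
  have k2 := mul_le_mul_of_nonneg_left t2 (by positivity : 0 ≤ 1 + 1 / s)
  calc _ ≤ (1 + s) * ((1 + s) * (∫ t, ‖Sf N p (fun _ => 1) T u t‖ ^ 2) +
      (1 + 1 / s) * Ep N T u V0 p) + (1 + 1 / s) * (C4 * E) := add_le_add k1 k2
    _ = _ := by ring

lemma Bd_nonneg {C4 : ℝ} (hC : 0 ≤ C4) (N : ℕ) (T u : ℝ) {V0 s E : ℝ} (hV : 0 ≤ V0) (hs : 0 < s)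
    (hE : 0 ≤ E) (p : IX) : 0 ≤ Bd C4 N T u V0 s E p := by
  unfold Bd
  have h1 : 0 ≤ ∫ t, ‖Sf N p (fun _ => 1) T u t‖ ^ 2 := integral_nonneg fun t => sq_nonneg _
  have h2 := Ep_nonneg N T u hV p
  positivity

/-- the sum of the bounds over the family -/
theorem Bd_avg (V0 C4 : ℝ) (hV : 0 ≤ V0) (hC4 : 1 ≤ C4) : ∃ C : ℝ, 1 ≤ C ∧
    ∀ (X Y N : ℕ) (T u G Z s : ℝ), 1 ≤ X → X ≤ Y → (N : ℝ) ≤ (X : ℝ) ^ 2 → 0 ≤ T → 0 ≤ u → 0 ≤ G →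
    u + G ≤ Real.log N → 0 < s → s ≤ 1 →
    ∫ t : ℝ, primFam X Y (fun q χ =>
      ‖∑' n : ℕ, (χ (n : ZMod q) * (ArithmeticFunction.vonMangoldt n : ℂ)) *
        ((Real.sqrt n : ℂ)⁻¹ * bt T u t (Real.log n))‖ ^ 2) ≤ Z →
    ∑ p ∈ primSet X Y, (1 / (p.1 : ℝ) ^ 2) * Bd C4 N T u V0 s (T * Real.exp (u - G ^ 2 / 4)) p ≤
      (1 + s) ^ 3 * Z + C / s * (WW X Y * (T * Real.exp (u - G ^ 2 / 4)) +
        (Real.log ((Y : ℝ) / X) + 1) * (u + 1)) := by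
  obtain ⟨C1, hC1, h1⟩ := trunc_ms
  obtain ⟨C2, hC2, h2⟩ := Ep_avg V0 hV
  refine ⟨8 * C1 + 4 * C2 + 2 * C4, by linarith, fun X Y N T u G Z s hX hXY hN hT hu hG hNl hs hs1
    hZ => ?_⟩
  have hA := h1 X Y N T u G Z s hT hu hG hNl hs hZ
  have hEp := h2 X Y N T u hX hXY hN hu
  have hLW := LB.LW_pos hX hXY
  obtain ⟨J, hJ⟩ : ∃ J, J = Real.log ((Y : ℝ) / X) + 1 := ⟨_, rfl⟩
  obtain ⟨W, hW⟩ : ∃ W, W = WW X Y := ⟨_, rfl⟩
  obtain ⟨E, hE⟩ : ∃ E, E = T * Real.exp (u - G ^ 2 / 4) := ⟨_, rfl⟩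
  have hE0 : 0 ≤ E := by rw [hE]; positivity
  have hW0 : 0 ≤ W := by rw [hW]; exact primFam_nonneg _ _ _ (fun _ _ => zero_le_one)
  have hWs : W = ∑ p ∈ primSet X Y, (1 / (p.1 : ℝ) ^ 2) := by rw [hW, WW_eq]
  rw [← hJ] at hEp hLW ⊢
  rw [← hE, ← hW] at hA ⊢
  have e1 : ∑ p ∈ primSet X Y, (1 / (p.1 : ℝ) ^ 2) * Bd C4 N T u V0 s E p =
      (1 + s) ^ 2 * (∑ p ∈ primSet X Y, (1 / (p.1 : ℝ) ^ 2) *
        ∫ t, ‖Sf N p (fun _ => 1) T u t‖ ^ 2) +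
      (1 + s) * (1 + 1 / s) * (∑ p ∈ primSet X Y, (1 / (p.1 : ℝ) ^ 2) * Ep N T u V0 p) +
      (1 + 1 / s) * (C4 * E) * W := by
    rw [hWs, Finset.mul_sum, Finset.mul_sum, Finset.mul_sum, ← Finset.sum_add_distrib,
      ← Finset.sum_add_distrib]
    refine Finset.sum_congr rfl fun p _ => ?_
    unfold Bd
    ring
  rw [e1]
  have hr0 : 0 ≤ 1 / s := by positivity
  have hb3 : (1 : ℝ) ≤ 1 / s := by rw [le_div_iff₀ hs]; linarith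
  have hb1 : 1 + 1 / s ≤ 2 / s := by
    have : 2 / s = 1 / s + 1 / s := by ring
    linarith
  have hb2 : (1 + s) ≤ 2 := by linarith
  have g1 := mul_le_mul_of_nonneg_left hA (by positivity : 0 ≤ (1 + s) ^ 2)
  have g2 := mul_le_mul_of_nonneg_left hEp (by positivity : 0 ≤ (1 + s) * (1 + 1 / s))
  have f1 : (1 + s) ^ 2 * ((1 + 1 / s) * (C1 * (W * E))) ≤ 8 * C1 * (1 / s) * (W * E) := by
    have k1 : (1 + s) ^ 2 ≤ 4 := by nlinarith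
    calc _ = (1 + s) ^ 2 * (1 + 1 / s) * (C1 * (W * E)) := by ring
      _ ≤ 4 * (2 / s) * (C1 * (W * E)) := by gcongr
      _ = _ := by ring
  have f2 : (1 + s) * (1 + 1 / s) * (C2 * (J * (u + 1))) ≤ 4 * C2 * (1 / s) * (J * (u + 1)) := by
    calc _ = (1 + s) * (1 + 1 / s) * (C2 * (J * (u + 1))) := by ring
      _ ≤ 2 * (2 / s) * (C2 * (J * (u + 1))) := by gcongr
      _ = _ := by ring
  have f3 : (1 + 1 / s) * (C4 * E) * W ≤ 2 * C4 * (1 / s) * (W * E) := by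
    calc _ = (1 + 1 / s) * (C4 * (W * E)) := by ring
      _ ≤ (2 / s) * (C4 * (W * E)) := by gcongr
      _ = _ := by ring
  have p1 : 0 ≤ (1 / s) * (W * E) := by positivity
  have p2 : 0 ≤ (1 / s) * (J * (u + 1)) := by positivity
  have e5 : (8 * C1 + 4 * C2 + 2 * C4) / s * (W * E + J * (u + 1)) =
      8 * C1 * (1 / s) * (W * E) + 2 * C4 * (1 / s) * (W * E) + 4 * C2 * (1 / s) * (J * (u + 1)) +
      (4 * C2 * ((1 / s) * (W * E)) + 8 * C1 * ((1 / s) * (J * (u + 1))) +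
        2 * C4 * ((1 / s) * (J * (u + 1)))) := by ring
  have p3 : 0 ≤ 4 * C2 * ((1 / s) * (W * E)) + 8 * C1 * ((1 / s) * (J * (u + 1))) +
        2 * C4 * ((1 / s) * (J * (u + 1))) := by positivity
  rw [e5]
  have e6 : (1 + s) ^ 3 * Z = (1 + s) ^ 2 * ((1 + s) * Z) := by ring
  rw [e6]
  linarith

/-- **The mean square for pairs of the same modulus, shifts depending on the first character.** -/
theorem ms_modS0 (V0 ε0 : ℝ) (hV : 0 ≤ V0) (hε0 : 0 < ε0) (hε1 : ε0 ≤ 1 / 8) : ∃ C : ℝ, 1 ≤ C ∧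
    ∀ (X Y N : ℕ) (T u G Z s : ℝ) (v : IX → ℝ),
    1 ≤ X → X ≤ Y → (N : ℝ) ≤ (X : ℝ) ^ 2 → 1 ≤ T → 0 ≤ u → 0 ≤ G → u + G ≤ Real.log N →
    0 < s → s ≤ 1 → (∀ p, |v p| ≤ V0) →
    ∫ t : ℝ, primFam X Y (fun q χ =>
      ‖∑' n : ℕ, (χ (n : ZMod q) * (ArithmeticFunction.vonMangoldt n : ℂ)) *
        ((Real.sqrt n : ℂ)⁻¹ * bt T u t (Real.log n))‖ ^ 2) ≤ Z →
    ∫ t : ℝ, ∑ z ∈ PB X Y, wB z * ‖∑' n : ℕ, (cp (fs z) (an (v (fs z))) n +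
        cp (sn z) (bn (v (fs z))) n) * ((Real.sqrt n : ℂ)⁻¹ * bt T u t (Real.log n))‖ ^ 2 ≤
      2 * (1 + s) ^ 4 * Z + C / s * (WW X Y * (T * Real.exp (u - G ^ 2 / 4)) +
        (Real.log ((Y : ℝ) / X) + 1) * (u + 1) +
        T * Real.exp ((1 + 4 * ε0) * u) * (X : ℝ) ^ (-(2 - 4 * ε0))) := by
  obtain ⟨C4, hC4, h1⟩ := one_char
  obtain ⟨C5, hC5, h5⟩ := Bd_avg V0 C4 hV hC4
  obtain ⟨C6, hC6, h6⟩ := Pf_modP ε0 hε0 (by linarith)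
  obtain ⟨C7, hC7, h7⟩ := cross_num ε0 hε0 hε1
  obtain ⟨C, hCd⟩ : ∃ C, C = 3 * C5 + C6 * C7 := ⟨_, rfl⟩
  have hC67 : 0 < C6 * C7 := mul_pos hC6 hC7
  refine ⟨C, by rw [hCd]; linarith, fun X Y N T u G Z s v hX hXY hN hT1 hu hG hNl hs hs1 hv hZ => ?_⟩
  have hT : 0 ≤ T := by linarith
  have hav : ∀ p, 0 ≤ an (v p) ∧ an (v p) ≤ V0 := fun p =>
    ⟨le_max_right _ _, max_le (by linarith [neg_abs_le (v p), hv p]) hV⟩
  have hbv : ∀ p, 0 ≤ bn (v p) ∧ bn (v p) ≤ V0 := fun p =>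
    ⟨le_max_right _ _, max_le (by linarith [le_abs_self (v p), hv p]) hV⟩
  have hX0 : (0 : ℝ) < X := by exact_mod_cast hX
  obtain ⟨E, hE⟩ : ∃ E, E = T * Real.exp (u - G ^ 2 / 4) := ⟨_, rfl⟩
  have hE0 : 0 ≤ E := by rw [hE]; positivity
  obtain ⟨M, hM⟩ : ∃ M, M = T * Real.exp ((1 + 4 * ε0) * u) := ⟨_, rfl⟩
  have hM0 : 0 ≤ M := by rw [hM]; positivity
  have hBd := h5 X Y N T u G Z s hX hXY hN hT hu hG hNl hs hs1 hZ
  rw [← hE] at hBd ⊢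
  rw [← hM]
  have hLW := LB.LW_pos hX hXY
  obtain ⟨J, hJ⟩ : ∃ J, J = Real.log ((Y : ℝ) / X) + 1 := ⟨_, rfl⟩
  rw [← hJ] at hBd hLW ⊢
  have hW0 : 0 ≤ WW X Y := primFam_nonneg _ _ _ (fun _ _ => zero_le_one)
  have hZ0 : 0 ≤ Z := le_trans (integral_nonneg fun t => primFam_nonneg _ _ _
    fun _ _ => sq_nonneg _) hZ
  have hi0 : ∀ (p : IX) (a : ℝ), Integrable (fun t => ‖Pf (cp p a) T u t‖ ^ 2) := fun p a =>
    fa_Pf_int (cp_norm p a) T u hT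
  have hc0 : ∀ (p : IX) (a : ℝ), Continuous (fun t => Pf (cp p a) T u t) := fun p a =>
    fa_Pf_cont (cp_norm p a) T u hT
  have hi1 : ∀ (p p' : IX) (a b : ℝ), Integrable (fun t => ‖Pf (cp p a) T u t +
      Pf (cp p' b) T u t‖ ^ 2) := fun p p' a b =>
    (sum_sq_int (hc0 p a) (hc0 p' b) (hi0 p a) (hi0 p' b)).1
  have e1 : ∀ (z : IB) (t : ℝ), ∑' n : ℕ, (cp (fs z) (an (v (fs z))) n +
        cp (sn z) (bn (v (fs z))) n) *
        ((Real.sqrt n : ℂ)⁻¹ * bt T u t (Real.log n)) = Pf (cp (fs z) (an (v (fs z)))) T u t +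
      Pf (cp (sn z) (bn (v (fs z)))) T u t := by
    intro z t
    have := Pf_add (cp_norm (fs z) (an (v (fs z)))) (cp_norm (sn z) (bn (v (fs z)))) T u t hT
    rw [← this]
    rfl
  simp_rw [e1]
  rw [integral_finsetSum _ fun z _ => (hi1 _ _ _ _).const_mul _]
  simp_rw [integral_const_mul]
  have e2 := avgB_eq X Y (fun z => ∫ t, ‖Pf (cp (fs z) (an (v (fs z)))) T u t +
      Pf (cp (sn z) (bn (v (fs z)))) T u t‖ ^ 2)
  unfold avgB at e2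
  rw [e2]
  -- one modulus
  have hq : ∀ q ∈ Finset.Ioc X Y, (1 / (q : ℝ) ^ 2) * (1 / (phs q : ℝ)) *
      (∑ χ ∈ PF q, ∑ ψ ∈ PF q, ∫ t, ‖Pf (cp (fs ⟨q, (χ, ψ)⟩) (an (v (fs ⟨q, (χ, ψ)⟩)))) T u t +
      Pf (cp (sn ⟨q, (χ, ψ)⟩) (bn (v (fs ⟨q, (χ, ψ)⟩)))) T u t‖ ^ 2) ≤
      (2 + s) * ((1 / (q : ℝ) ^ 2) * ∑ χ ∈ PF q, Bd C4 N T u V0 s E ⟨q, χ⟩) +
      1 / s * C6 * ((1 / (q : ℝ) ^ 2) * (1 / (phs q : ℝ)) * ((q.divisors.card : ℝ) ^ 2 * M)) := by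
    intro q hq
    rw [Finset.mem_Ioc] at hq
    have hq0 : 0 < q := by omega
    have hqr : (0 : ℝ) < q := by exact_mod_cast hq0
    have hBq : 0 ≤ ∑ χ ∈ PF q, Bd C4 N T u V0 s E ⟨q, χ⟩ :=
      Finset.sum_nonneg fun χ _ => Bd_nonneg (by linarith) N T u hV hs hE0 _
    by_cases h0 : phs q = 0
    · rw [h0, Nat.cast_zero, div_zero, mul_zero, zero_mul]
      positivity
    · have hcard : 0 < (PF q).card := by
        rw [PF_card (by omega)]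
        omega
      have hcr : ((PF q).card : ℝ) = (phs q : ℝ) := by rw [PF_card (by omega)]
      have hφ : (0 : ℝ) < (phs q : ℝ) := by
        rw [← hcr]
        exact_mod_cast hcard
      have hχ : ∀ χ ∈ PF q, ∑ ψ ∈ PF q, ∫ t, ‖Pf (cp ⟨q, χ⟩ (an (v ⟨q, χ⟩))) T u t +
          Pf (cp ⟨q, ψ⟩ (bn (v ⟨q, χ⟩))) T u t‖ ^ 2 ≤
          (1 + s) * (phs q : ℝ) * Bd C4 N T u V0 s E ⟨q, χ⟩ +
            (∑ ψ ∈ PF q, Bd C4 N T u V0 s E ⟨q, ψ⟩) +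
            1 / (s * (phs q : ℝ)) * (C6 * ((q.divisors.card : ℝ) ^ 2 * M)) := by
        intro χ _
        obtain ⟨a, ha⟩ : ∃ a, a = an (v ⟨q, χ⟩) := ⟨_, rfl⟩
        obtain ⟨b, hb⟩ : ∃ b, b = bn (v ⟨q, χ⟩) := ⟨_, rfl⟩
        have ha0 : 0 ≤ a := by rw [ha]; exact (hav _).1
        have hb0 : 0 ≤ b := by rw [hb]; exact (hbv _).1
        have haV : a ≤ V0 := by rw [ha]; exact (hav _).2
        have hbV : b ≤ V0 := by rw [hb]; exact (hbv _).2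
        rw [← ha, ← hb]
        have hcs : Continuous (fun t => ∑ ψ ∈ PF q, Pf (cp ⟨q, ψ⟩ b) T u t) :=
          continuous_finsetSum _ fun ψ _ => hc0 ⟨q, ψ⟩ b
        have his : Integrable (fun t => ‖∑ ψ ∈ PF q, Pf (cp ⟨q, ψ⟩ b) T u t‖ ^ 2) := by
          refine Integrable.mono' ((integrable_finsetSum (PF q) fun ψ _ => hi0 ⟨q, ψ⟩ b).const_mul
            ((PF q).card : ℝ)) (hcs.norm.pow 2).aestronglyMeasurable ?_
          refine Filter.Eventually.of_forall fun t => ?_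
          rw [Real.norm_of_nonneg (sq_nonneg _)]
          have k1 : ‖∑ ψ ∈ PF q, Pf (cp ⟨q, ψ⟩ b) T u t‖ ≤
              ∑ ψ ∈ PF q, ‖Pf (cp ⟨q, ψ⟩ b) T u t‖ := norm_sum_le _ _
          refine (pow_le_pow_left₀ (norm_nonneg _) k1 2).trans ?_
          exact sq_sum_le_card_mul_sum_sq
        rw [← integral_finsetSum _ fun ψ _ => hi1 ⟨q, χ⟩ ⟨q, ψ⟩ a b]
        have r1 : Integrable (fun t => (1 + s) * ((PF q).card : ℝ) *
            ‖Pf (cp ⟨q, χ⟩ a) T u t‖ ^ 2) := (hi0 ⟨q, χ⟩ a).const_mul _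
        have r2 : Integrable (fun t => ∑ ψ ∈ PF q, ‖Pf (cp ⟨q, ψ⟩ b) T u t‖ ^ 2) :=
          integrable_finsetSum _ fun ψ _ => hi0 ⟨q, ψ⟩ b
        have r3 : Integrable (fun t => 1 / (s * ((PF q).card : ℝ)) *
            ‖∑ ψ ∈ PF q, Pf (cp ⟨q, ψ⟩ b) T u t‖ ^ 2) := his.const_mul _
        have r4 : Integrable (fun t => (1 + s) * ((PF q).card : ℝ) *
            ‖Pf (cp ⟨q, χ⟩ a) T u t‖ ^ 2 + ∑ ψ ∈ PF q, ‖Pf (cp ⟨q, ψ⟩ b) T u t‖ ^ 2) := r1.add r2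
        have hR : Integrable (fun t => (1 + s) * ((PF q).card : ℝ) *
            ‖Pf (cp ⟨q, χ⟩ a) T u t‖ ^ 2 + ∑ ψ ∈ PF q, ‖Pf (cp ⟨q, ψ⟩ b) T u t‖ ^ 2 +
            1 / (s * ((PF q).card : ℝ)) * ‖∑ ψ ∈ PF q, Pf (cp ⟨q, ψ⟩ b) T u t‖ ^ 2) := r4.add r3
        refine (integral_mono (integrable_finsetSum _ fun ψ _ => hi1 ⟨q, χ⟩ ⟨q, ψ⟩ a b) hR
          fun t => sum_sq_le (PF q) (Pf (cp ⟨q, χ⟩ a) T u t) (fun ψ => Pf (cp ⟨q, ψ⟩ b) T u t)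
            hs hcard).trans ?_
        rw [integral_add r4 r3, integral_add r1 r2, integral_const_mul, integral_const_mul,
          integral_finsetSum _ fun ψ _ => hi0 ⟨q, ψ⟩ b, hcr]
        have m1 := h1 N ⟨q, χ⟩ a V0 T u G s hT hu hG hNl hs ha0 haV
        rw [← hE] at m1
        have m2 : ∑ ψ ∈ PF q, ∫ t, ‖Pf (cp ⟨q, ψ⟩ b) T u t‖ ^ 2 ≤
            ∑ ψ ∈ PF q, Bd C4 N T u V0 s E ⟨q, ψ⟩ := by
          refine Finset.sum_le_sum fun ψ _ => ?_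
          have m3 := h1 N ⟨q, ψ⟩ b V0 T u G s hT hu hG hNl hs hb0 hbV
          rwa [← hE] at m3
        have m4 := h6 q hq0 T u b hT1 hu
        rw [← hM] at m4
        have m5 := mul_le_mul_of_nonneg_left m1 (by positivity : 0 ≤ (1 + s) * (phs q : ℝ))
        have m6 := mul_le_mul_of_nonneg_left m4 (by positivity : 0 ≤ 1 / (s * (phs q : ℝ)))
        exact add_le_add (add_le_add m5 m2) m6
      have hall := Finset.sum_le_sum hχ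
      rw [Finset.sum_add_distrib, Finset.sum_add_distrib, Finset.sum_const, Finset.sum_const,
        nsmul_eq_mul, nsmul_eq_mul, ← Finset.mul_sum, hcr] at hall
      have hw : 0 ≤ (1 / (q : ℝ) ^ 2) * (1 / (phs q : ℝ)) := by positivity
      refine (mul_le_mul_of_nonneg_left hall hw).trans (le_of_eq ?_)
      field_simp
      ring
  refine (Finset.sum_le_sum hq).trans ?_
  rw [Finset.sum_add_distrib, ← Finset.mul_sum, ← Finset.mul_sum]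
  have e3 : ∑ q ∈ Finset.Ioc X Y, (1 / (q : ℝ) ^ 2) * ∑ χ ∈ PF q, Bd C4 N T u V0 s E ⟨q, χ⟩ =
      ∑ p ∈ primSet X Y, (1 / (p.1 : ℝ) ^ 2) * Bd C4 N T u V0 s E p := by
    rw [primSet_eq, Finset.sum_sigma]
    refine Finset.sum_congr rfl fun q _ => ?_
    rw [Finset.mul_sum]
  rw [e3]
  have g1 := mul_le_mul_of_nonneg_left hBd (by linarith : 0 ≤ 2 + s)
  have g2 := mul_le_mul_of_nonneg_left (h7 X Y hX M hM0) (by positivity : 0 ≤ 1 / s * C6)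
  obtain ⟨D, hD⟩ : ∃ D, D = (X : ℝ) ^ (-(2 - 4 * ε0)) := ⟨_, rfl⟩
  have hD0 : 0 ≤ D := by rw [hD]; positivity
  rw [← hD] at g2 ⊢
  obtain ⟨B, hB⟩ : ∃ B, B = WW X Y * E + J * (u + 1) := ⟨_, rfl⟩
  have hB0 : 0 ≤ B := by rw [hB]; positivity
  rw [← hB] at g1 ⊢
  have k1 : (2 + s) * ((1 + s) ^ 3 * Z + C5 / s * B) ≤ 2 * (1 + s) ^ 4 * Z + 3 * C5 / s * B := by
    have k2 : (2 + s) * ((1 + s) ^ 3 * Z) ≤ 2 * (1 + s) ^ 4 * Z := by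
      have k3 : 0 ≤ (1 + s) ^ 3 * Z := by positivity
      nlinarith
    have k4 : (2 + s) * (C5 / s * B) ≤ 3 * (C5 / s * B) :=
      mul_le_mul_of_nonneg_right (by linarith) (by positivity)
    have k5 : 3 * C5 / s * B = 3 * (C5 / s * B) := by ring
    rw [k5]
    linarith
  have k6 : C / s * (B + M * D) = 3 * C5 / s * B + 1 / s * C6 * (C7 * (M * D)) +
      (C6 * C7 * ((1 / s) * B) + 3 * C5 * ((1 / s) * (M * D))) := by
    rw [hCd]; ring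
  have k7 : 0 ≤ C6 * C7 * ((1 / s) * B) + 3 * C5 * ((1 / s) * (M * D)) := by positivity
  rw [k6]
  linarith

end Pool.Agent.T4h70.LC
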