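import Pool.Agent.T4h70.LC.M2

/-!
# Pairs of characters of the same modulus, shifts depending on the first character: parameters
-/

set_option autoImplicit false
set_option maxHeartbeats 4000000

open Complex Filter Topology Set MeasureTheory

namespace Pool.Agent.T4h70.LC

open H385
open Pool.Agent.R321.RC (cf cf_norm)
open Pool.Agent.R321.RD (IB PB wB wB_nonneg fs sn avgB avgB_eq avgB_fst avgB_swap avgB_nonneg
  mem_PB sum_wB PF_card)
open Pool.Agent.T4h70.LI (ph ph_norm ph_zero vm_ph sh)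
open Pool.Agent.T4h70.LB (cp cp_norm an bn)

/-- **The mean square with the parameters chosen.** -/
theorem ms_modparam (V0 β ε : ℝ) (hV : 0 ≤ V0) (hβ1 : 1 < β) (hβ2 : β < 2) (hε : 0 < ε)
    (hε1 : ε ≤ 1) :
    ∃ K X0 : ℝ, 1 ≤ K ∧ 1 ≤ X0 ∧ ∀ (X Y : ℕ) (T u Z : ℝ) (v : IX → ℝ),
    X0 ≤ X → K * X ≤ Y → (Real.log X) ^ 2 ≤ T → 0 ≤ u → u ≤ β * Real.log X →
    (∀ p, |v p| ≤ V0) →
    ∫ t : ℝ, primFam X Y (fun q χ =>
      ‖∑' n : ℕ, (χ (n : ZMod q) * (ArithmeticFunction.vonMangoldt n : ℂ)) *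
        ((Real.sqrt n : ℂ)⁻¹ * bt T u t (Real.log n))‖ ^ 2) ≤ Z →
    ∫ t : ℝ, ∑ z ∈ PB X Y, wB z * ‖∑' n : ℕ, (cp (fs z) (an (v (fs z))) n +
        cp (sn z) (bn (v (fs z))) n) * ((Real.sqrt n : ℂ)⁻¹ * bt T u t (Real.log n))‖ ^ 2 ≤
      (1 + ε) * (2 * Z) + ε * (T * Real.log X * WW X Y) := by
  obtain ⟨ε0, hε0⟩ : ∃ ε0, ε0 = (2 - β) / (8 * (β + 1)) := ⟨_, rfl⟩
  have hβ0 : 0 < β := by linarith
  have hβd : 0 < 2 - β := by linarith
  have hε00 : 0 < ε0 := by rw [hε0]; positivity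
  have hε01 : ε0 ≤ 1 / 8 := by
    rw [hε0, div_le_div_iff₀ (by positivity) (by norm_num)]
    linarith
  have hexp : (1 + 4 * ε0) * β - (2 - 4 * ε0) = -((2 - β) / 2) := by
    rw [hε0]
    field_simp
    ring
  obtain ⟨C, hC, hmain⟩ := ms_modS0 V0 ε0 hV hε00 hε01
  obtain ⟨C4, hC4, hmass⟩ := prim_mass
  have hc0 : 0 < c0 := by unfold c0; positivity
  obtain ⟨C5, hC5d⟩ : ∃ C5, C5 = (1 + C4) / c0 ^ 2 + 1 := ⟨_, rfl⟩
  have hC5 : 1 ≤ C5 := by
    rw [hC5d]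
    have : 0 ≤ (1 + C4) / c0 ^ 2 := by positivity
    linarith
  obtain ⟨s, hs⟩ : ∃ s, s = ε / 15 := ⟨_, rfl⟩
  have hs0 : 0 < s := by rw [hs]; positivity
  have hs1 : s ≤ 1 := by rw [hs]; linarith
  obtain ⟨L0, hL0⟩ : ∃ L0, L0 = 1 + 3 * C / (s * ε) + 8 / (2 - β) ^ 2 + 9 * C * C5 / (s * ε) :=
    ⟨_, rfl⟩
  have q4 : 0 ≤ 3 * C / (s * ε) := by positivity
  have q5 : 0 ≤ 8 / (2 - β) ^ 2 := by positivity
  have q6 : 0 ≤ 9 * C * C5 / (s * ε) := by positivity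
  refine ⟨Real.exp ((C4 + 1) / c0 ^ 2), Real.exp L0, Real.one_le_exp (by positivity),
    Real.one_le_exp (by rw [hL0]; linarith), ?_⟩
  intro X Y T u Z v hX hKX hT hu0 hu hv hZ
  have hXpos : (0 : ℝ) < X := lt_of_lt_of_le (Real.exp_pos _) hX
  obtain ⟨L, hLd⟩ : ∃ L, L = Real.log X := ⟨_, rfl⟩
  rw [← hLd] at hT hu ⊢
  have hLL0 : L0 ≤ L := by rw [hLd, Real.le_log_iff_exp_le hXpos]; exact hX
  have l1 : 1 ≤ L := by linarith
  have l6 : 3 * C / (s * ε) ≤ L := by linarith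
  have l7 : 8 / (2 - β) ^ 2 ≤ L := by linarith
  have l8 : 9 * C * C5 / (s * ε) ≤ L := by linarith
  have hLp : 0 < L := by linarith
  have hTL : L ≤ T := by nlinarith
  have hTp : 0 < T := by linarith
  have hT1 : 1 ≤ T := by linarith
  have hXn : 1 ≤ X := by exact_mod_cast hXpos
  have hK1 : (1 : ℝ) ≤ Real.exp ((C4 + 1) / c0 ^ 2) := Real.one_le_exp (by positivity)
  have hXYr : (X : ℝ) ≤ Y := by
    calc (X : ℝ) = 1 * X := (one_mul _).symm
      _ ≤ _ := mul_le_mul_of_nonneg_right hK1 hXpos.le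
      _ ≤ Y := hKX
  have hXY : X ≤ Y := by exact_mod_cast hXYr
  have hYpos : (0 : ℝ) < Y := by linarith
  -- the mass
  have hm := abs_le.1 (hmass X Y hXn hXY)
  have hWeq : primFam X Y (fun _ _ => 1) = WW X Y := rfl
  rw [hWeq] at hm
  obtain ⟨W, hW⟩ : ∃ W, W = WW X Y := ⟨_, rfl⟩
  rw [← hW] at hm ⊢
  have hlog : (C4 + 1) / c0 ^ 2 ≤ Real.log ((Y : ℝ) / X) := by
    rw [Real.le_log_iff_exp_le (by positivity), le_div_iff₀ hXpos]
    exact hKX
  have hW1 : 1 ≤ W := by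
    rw [div_le_iff₀ (by positivity)] at hlog
    have h4 : c0 ^ 2 * Real.log ((Y : ℝ) / X) = Real.log ((Y : ℝ) / X) * c0 ^ 2 := mul_comm _ _
    linarith [hm.1]
  obtain ⟨J, hJ⟩ : ∃ J, J = Real.log ((Y : ℝ) / X) + 1 := ⟨_, rfl⟩
  have hJ0 : 0 < J := by rw [hJ]; exact LB.LW_pos hXn hXY
  have hJW : J ≤ C5 * W := by
    have h5 : Real.log ((Y : ℝ) / X) ≤ (1 + C4) / c0 ^ 2 * W := by
      rw [div_mul_eq_mul_div, le_div_iff₀ (by positivity)]
      nlinarith [hm.1, mul_nonneg hC4.le (sub_nonneg.2 hW1)]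
    rw [hJ, hC5d]
    nlinarith
  -- the truncation
  have hN : ((X ^ 2 : ℕ) : ℝ) ≤ (X : ℝ) ^ 2 := by push_cast; exact le_rfl
  have hlN : Real.log ((X ^ 2 : ℕ) : ℝ) = 2 * L := by
    push_cast
    rw [Real.log_pow, hLd]
    push_cast
    ring
  have hG0 : 0 ≤ (2 - β) * L := by positivity
  have hGN : u + (2 - β) * L ≤ Real.log ((X ^ 2 : ℕ) : ℝ) := by rw [hlN]; linarith
  have hu2 : u ≤ 2 * L := by nlinarith
  have h7 := hmain X Y (X ^ 2) T u ((2 - β) * L) Z s v hXn hXY hN hT1 hu0 hG0 hGN hs0 hs1 hv hZ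
  rw [← hJ, ← hW] at h7
  have hZ0 : 0 ≤ Z := le_trans (integral_nonneg fun t => primFam_nonneg _ _ _
    fun _ _ => sq_nonneg _) hZ
  refine h7.trans ?_
  have hE : Real.exp (u - ((2 - β) * L) ^ 2 / 4) ≤ 1 := by
    rw [Real.exp_le_one_iff]
    rw [div_le_iff₀ (by positivity)] at l7
    have h8 : 8 * L ≤ L * (2 - β) ^ 2 * L := mul_le_mul_of_nonneg_right l7 hLp.le
    nlinarith
  have hD : Real.exp ((1 + 4 * ε0) * u) * (X : ℝ) ^ (-(2 - 4 * ε0)) ≤ 1 := by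
    have hXexp : (X : ℝ) = Real.exp L := by rw [hLd, Real.exp_log hXpos]
    rw [hXexp, ← Real.exp_mul, ← Real.exp_add, Real.exp_le_one_iff]
    have b3 : (1 + 4 * ε0) * u ≤ (1 + 4 * ε0) * (β * L) :=
      mul_le_mul_of_nonneg_left hu (by positivity)
    have b4 : (1 + 4 * ε0) * (β * L) + L * (-(2 - 4 * ε0)) = -((2 - β) / 2) * L := by
      rw [← hexp]; ring
    have b5 : 0 ≤ (2 - β) / 2 * L := by positivity
    linarith
  have h9 : C / s ≤ ε / 3 * L := by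
    rw [div_le_iff₀ (by positivity)] at l6
    rw [div_le_iff₀ hs0]
    nlinarith
  have t1 : C / s * (W * (T * Real.exp (u - ((2 - β) * L) ^ 2 / 4))) ≤ ε / 3 * (T * L * W) := by
    calc _ ≤ C / s * (W * (T * 1)) := by gcongr
      _ = C / s * (T * W) := by ring
      _ ≤ (ε / 3 * L) * (T * W) := mul_le_mul_of_nonneg_right h9 (by positivity)
      _ = _ := by ring
  have t2 : C / s * (J * (u + 1)) ≤ ε / 3 * (T * L * W) := by
    rw [div_le_iff₀ (by positivity)] at l8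
    have h9 : 3 * (C / s * C5) ≤ ε / 3 * T := by
      have h10 : 3 * (C / s * C5) = 3 * (C * C5) / s := by ring
      rw [h10, div_le_iff₀ hs0]
      have h11 : L * (s * ε) ≤ T * (s * ε) := mul_le_mul_of_nonneg_right hTL (by positivity)
      nlinarith
    calc _ ≤ C / s * ((C5 * W) * (3 * L)) := by
          gcongr
          linarith
      _ = 3 * (C / s * C5) * (L * W) := by ring
      _ ≤ (ε / 3 * T) * (L * W) := mul_le_mul_of_nonneg_right h9 (by positivity)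
      _ = _ := by ring
  have t3 : C / s * (T * Real.exp ((1 + 4 * ε0) * u) * (X : ℝ) ^ (-(2 - 4 * ε0))) ≤
      ε / 3 * (T * L * W) := by
    calc _ = C / s * (T * (Real.exp ((1 + 4 * ε0) * u) * (X : ℝ) ^ (-(2 - 4 * ε0)))) := by ring
      _ ≤ C / s * (T * 1) := by gcongr
      _ ≤ (ε / 3 * L) * (T * 1) := mul_le_mul_of_nonneg_right h9 (by positivity)
      _ ≤ (ε / 3 * L) * (T * W) := by gcongr
      _ = _ := by ring
  have t4 : 2 * (1 + s) ^ 4 * Z ≤ (1 + ε) * (2 * Z) := by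
    have k0 : s ^ 2 ≤ s := by
      rw [sq]
      exact mul_le_of_le_one_right hs0.le hs1
    have k1 : (1 + s) ^ 2 ≤ 1 + 3 * s := by
      have : (1 + s) ^ 2 = 1 + 2 * s + s ^ 2 := by ring
      linarith
    have k3 : (1 + s) ^ 4 ≤ 1 + 15 * s := by
      calc (1 + s) ^ 4 = ((1 + s) ^ 2) ^ 2 := by ring
        _ ≤ (1 + 3 * s) ^ 2 := pow_le_pow_left₀ (by positivity) k1 2
        _ = 1 + 6 * s + 9 * s ^ 2 := by ring
        _ ≤ 1 + 15 * s := by linarith
    have k4 : 15 * s = ε := by rw [hs]; ring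
    rw [k4] at k3
    calc 2 * (1 + s) ^ 4 * Z = (1 + s) ^ 4 * (2 * Z) := by ring
      _ ≤ (1 + ε) * (2 * Z) := mul_le_mul_of_nonneg_right k3 (by linarith)
  have e5 : C / s * (W * (T * Real.exp (u - ((2 - β) * L) ^ 2 / 4)) + J * (u + 1) +
      T * Real.exp ((1 + 4 * ε0) * u) * (X : ℝ) ^ (-(2 - 4 * ε0))) =
      C / s * (W * (T * Real.exp (u - ((2 - β) * L) ^ 2 / 4))) +
      C / s * (J * (u + 1)) +
      C / s * (T * Real.exp ((1 + 4 * ε0) * u) * (X : ℝ) ^ (-(2 - 4 * ε0))) := by ring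
  rw [e5]
  linarith

/-- the mean square data for the pairs of the same modulus with shifts -/
theorem HY_modS (V0 γ β c' : ℝ) (hV : 0 ≤ V0) (h0 : 0 < γ) (hπ : γ < Real.pi) (hβ1 : 1 < β)
    (hβ2 : β < 2) (hc' : 0 ≤ c') (H : HY γ β c') (ε : ℝ) (hε : 0 < ε) :
    ∃ K η X0 : ℝ, 1 ≤ K ∧ 0 < η ∧ 1 ≤ X0 ∧
  ∀ (X Y : ℕ) (T : ℝ) (v : IX → ℝ), X0 ≤ X → K * X ≤ Y → (Y : ℝ) ≤ (X : ℝ) ^ (1 + η) →
    (Real.log X) ^ 2 ≤ T → T ≤ (X : ℝ) ^ η → (∀ p, |v p| ≤ V0) →
  1 ≤ WW X Y ∧ ∃ (Yf : ℝ → ℝ) (y1 y2 : ℝ), 0 ≤ y1 ∧ 0 ≤ y2 ∧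
    (∀ u ∈ Set.Icc 0 (β * Real.log X), ∫ t : ℝ, ∑ z ∈ PB X Y, wB z *
      ‖∑' n : ℕ, (cp (fs z) (an (v (fs z))) n + cp (sn z) (bn (v (fs z))) n) *
        ((Real.sqrt n : ℂ)⁻¹ * bt T u t (Real.log n))‖ ^ 2 ≤ Yf u) ∧
    (∀ u ∈ Set.Icc 0 (β * Real.log X), Yf u ≤ T * (y1 * (u + 1) + y2)) ∧
    IntervalIntegrable Yf volume 0 (β * Real.log X) ∧
    (2 / (Real.sqrt Real.pi * (β * Real.log X))) * (∫ u in (0 : ℝ)..(β * Real.log X),
      Rw γ (u / (β * Real.log X)) * Yf u) ≤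
      T / (2 * Real.pi) * Real.log X * (WW X Y) * (2 * c' + ε) ∧
    Real.sqrt y1 + Real.sqrt y2 ≤ ε * Real.log X * Real.sqrt (WW X Y) := by
  have hpi := Real.pi_pos
  have hβ : 0 < β := by linarith
  obtain ⟨R0, hR0⟩ : ∃ R0, R0 = Rw γ 0 := ⟨_, rfl⟩
  have hR0n : 0 ≤ R0 := by rw [hR0]; exact Rw_nonneg γ h0 hπ 0
  obtain ⟨e, he0, he1, he2, he3, he4⟩ : ∃ e : ℝ, 0 < e ∧ e ≤ 1 ∧ e ≤ ε ^ 2 / 4 ∧
      e * (2 * c' + ε / 4) ≤ ε / 4 ∧ 4 * Real.pi * R0 * e ≤ ε / 2 := by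
    refine ⟨min (min 1 (ε ^ 2 / 4)) (min (ε / 4 / (2 * c' + ε / 4))
      (ε / 2 / (4 * Real.pi * (R0 + 1)))), ?_, ?_, ?_, ?_, ?_⟩
    · exact lt_min (lt_min one_pos (by positivity)) (lt_min (by positivity) (by positivity))
    · exact (min_le_left _ _).trans (min_le_left _ _)
    · exact (min_le_left _ _).trans (min_le_right _ _)
    · have h1 : min (min 1 (ε ^ 2 / 4)) (min (ε / 4 / (2 * c' + ε / 4))
        (ε / 2 / (4 * Real.pi * (R0 + 1)))) ≤ ε / 4 / (2 * c' + ε / 4) :=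
        (min_le_right _ _).trans (min_le_left _ _)
      rwa [le_div_iff₀ (by positivity)] at h1
    · have h1 : min (min 1 (ε ^ 2 / 4)) (min (ε / 4 / (2 * c' + ε / 4))
        (ε / 2 / (4 * Real.pi * (R0 + 1)))) ≤ ε / 2 / (4 * Real.pi * (R0 + 1)) :=
        (min_le_right _ _).trans (min_le_right _ _)
      have h2 : 0 < min (min 1 (ε ^ 2 / 4)) (min (ε / 4 / (2 * c' + ε / 4))
        (ε / 2 / (4 * Real.pi * (R0 + 1)))) :=
        lt_min (lt_min one_pos (by positivity)) (lt_min (by positivity) (by positivity))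
      rw [le_div_iff₀ (by positivity)] at h1
      have h3 : 0 < Real.pi * min (min 1 (ε ^ 2 / 4)) (min (ε / 4 / (2 * c' + ε / 4))
        (ε / 2 / (4 * Real.pi * (R0 + 1)))) := mul_pos hpi h2
      nlinarith
  obtain ⟨K1, X1, hK1, hX1, hms⟩ := ms_modparam V0 β e hV hβ1 hβ2 he0 he1
  obtain ⟨C4, hC4, hmass⟩ := prim_mass
  obtain ⟨K, η, X0, hK, hη, hX0, hmain⟩ := H (ε / 8) (by positivity)
  have hc0 : 0 < c0 := by unfold c0; positivity
  refine ⟨max (max K K1) (Real.exp ((C4 + 1) / c0 ^ 2)), η, max (max X0 X1) (Real.exp 1),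
    le_max_of_le_left (le_max_of_le_left hK), hη, le_max_of_le_left (le_max_of_le_left hX0), ?_⟩
  intro X Y T v hX hKX hYX hT1 hT2 hv
  have hXX0 : X0 ≤ X := (le_max_left _ _).trans ((le_max_left _ _).trans hX)
  have hXX1 : X1 ≤ X := (le_max_right _ _).trans ((le_max_left _ _).trans hX)
  have hXe : Real.exp 1 ≤ X := (le_max_right _ _).trans hX
  have hXr1 : (1 : ℝ) ≤ X := hX0.trans hXX0
  have hXpos : (0 : ℝ) < X := by linarith
  have hXn : 1 ≤ X := by exact_mod_cast hXr1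
  have hKXa : K * X ≤ Y :=
    (mul_le_mul_of_nonneg_right ((le_max_left _ _).trans (le_max_left _ _)) hXpos.le).trans hKX
  have hKXb : K1 * X ≤ Y :=
    (mul_le_mul_of_nonneg_right ((le_max_right _ _).trans (le_max_left _ _)) hXpos.le).trans hKX
  have hKXc : Real.exp ((C4 + 1) / c0 ^ 2) * X ≤ Y :=
    (mul_le_mul_of_nonneg_right (le_max_right _ _) hXpos.le).trans hKX
  have hXYr : (X : ℝ) ≤ Y := NL.b11 hXpos.le hK hKXa
  have hXY : X ≤ Y := by exact_mod_cast hXYr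
  have hYpos : (0 : ℝ) < Y := by linarith
  obtain ⟨L, hL⟩ : ∃ L, L = Real.log X := ⟨_, rfl⟩
  have hL1 : 1 ≤ L := by rw [hL, Real.le_log_iff_exp_le hXpos]; exact hXe
  have hLp : 0 < L := by linarith
  obtain ⟨W, hW⟩ : ∃ W, W = WW X Y := ⟨_, rfl⟩
  have hW1 : 1 ≤ W := by
    rw [hW]
    have h1 := (abs_le.1 (hmass X Y hXn hXY)).1
    have h2 : (C4 + 1) / c0 ^ 2 ≤ Real.log ((Y : ℝ) / X) := by
      rw [Real.le_log_iff_exp_le (by positivity), le_div_iff₀ hXpos]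
      exact hKXc
    rw [div_le_iff₀ (by positivity)] at h2
    have h3 : primFam X Y (fun _ _ => 1) = WW X Y := rfl
    rw [h3] at h1
    have h4 : c0 ^ 2 * Real.log ((Y : ℝ) / X) = Real.log ((Y : ℝ) / X) * c0 ^ 2 := mul_comm _ _
    linarith
  have hW0 : 0 < W := by linarith
  obtain ⟨Yf, y1, y2, hy1, hy2, m1, m2, m3, m4, m5⟩ := hmain X Y T hXX0 hKXa hYX hT1 hT2
  rw [← hL] at hT1 m1 m2 m3 m4 m5
  rw [← hW] at m4 m5
  rw [← hL, ← hW]
  have hT0 : 1 ≤ T := le_trans (one_le_pow₀ hL1) hT1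
  have hTp : 0 < T := by linarith
  refine ⟨hW1, fun u => (1 + e) * (2 * Yf u) + e * (T * L * W),
    (1 + e) * 2 * y1, (1 + e) * 2 * y2 + e * (L * W), by positivity,
    by positivity, ?_, ?_, ?_, ?_, ?_⟩
  · intro u hu
    have h1 := hms X Y T u (Yf u) v hXX1 hKXb (by rw [← hL]; exact hT1) hu.1
      (by rw [← hL]; exact hu.2) hv (m1 u hu)
    rw [← hL, ← hW] at h1
    exact h1
  · intro u hu
    have b1 := mul_le_mul_of_nonneg_left (m2 u hu) (by positivity : 0 ≤ (1 + e) * 2)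
    simp only
    calc _ = (1 + e) * 2 * Yf u + e * (T * L * W) := by ring
      _ ≤ (1 + e) * 2 * (T * (y1 * (u + 1) + y2)) + e * (T * L * W) :=
          add_le_add b1 le_rfl
      _ = _ := by ring
  · exact ((m3.const_mul 2).const_mul (1 + e)).add (by simp)
  · have hβL : 0 < β * L := by positivity
    have hRc : Continuous (fun u : ℝ => Rw γ (u / (β * L))) :=
      (Rw_cont γ h0 hπ).comp (continuous_id.div_const _)
    have i1 : IntervalIntegrable (fun u => Rw γ (u / (β * L)) * Yf u) volume 0 (β * L) :=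
      m3.continuousOn_mul hRc.continuousOn
    have i2 : IntervalIntegrable (fun u => Rw γ (u / (β * L)) *
        (e * (T * L * W))) volume 0 (β * L) :=
      (hRc.mul continuous_const).intervalIntegrable _ _
    have e1 : ∫ u in (0 : ℝ)..(β * L), Rw γ (u / (β * L)) *
        ((1 + e) * (2 * Yf u) + e * (T * L * W)) =
        (1 + e) * 2 * (∫ u in (0 : ℝ)..(β * L), Rw γ (u / (β * L)) * Yf u) +
        ∫ u in (0 : ℝ)..(β * L), Rw γ (u / (β * L)) * (e * (T * L * W)) := by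
      rw [← intervalIntegral.integral_const_mul,
        ← intervalIntegral.integral_add (i1.const_mul _) i2]
      exact intervalIntegral.integral_congr fun u _ => by ring
    rw [e1, mul_add]
    have g1 : (2 / (Real.sqrt Real.pi * (β * L))) *
        ((1 + e) * 2 * (∫ u in (0 : ℝ)..(β * L), Rw γ (u / (β * L)) * Yf u)) ≤
        T / (2 * Real.pi) * L * W * (2 * c' + ε / 2) := by
      have := mul_le_mul_of_nonneg_left m4 (show 0 ≤ (1 + e) * 2 by positivity)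
      have h5 : (1 + e) * (2 * c' + ε / 4) ≤ 2 * c' + ε / 2 := by linarith
      calc _ = (1 + e) * 2 * ((2 / (Real.sqrt Real.pi * (β * L))) *
          (∫ u in (0 : ℝ)..(β * L), Rw γ (u / (β * L)) * Yf u)) := by ring
        _ ≤ (1 + e) * 2 * (T / (2 * Real.pi) * L * W * (c' + ε / 8)) := this
        _ = T / (2 * Real.pi) * L * W * ((1 + e) * (2 * c' + ε / 4)) := by ring
        _ ≤ _ := mul_le_mul_of_nonneg_left h5 (by positivity)
    have g2 : ∫ u in (0 : ℝ)..(β * L), Rw γ (u / (β * L)) * (e * (T * L * W)) ≤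
        ∫ _ in (0 : ℝ)..(β * L), R0 * (e * (T * L * W)) := by
      refine intervalIntegral.integral_mono_on hβL.le i2 (continuous_const.intervalIntegrable _ _)
        fun u hu => ?_
      refine mul_le_mul_of_nonneg_right ?_ (by positivity)
      rw [hR0]
      exact Rw_le γ h0 hπ _ (div_nonneg hu.1 hβL.le)
    rw [intervalIntegral.integral_const, smul_eq_mul, sub_zero] at g2
    have hs1 : 1 ≤ Real.sqrt Real.pi := by
      rw [Real.one_le_sqrt]; linarith [Real.pi_gt_three]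
    have g3 : (2 / (Real.sqrt Real.pi * (β * L))) * (∫ u in (0 : ℝ)..(β * L),
        Rw γ (u / (β * L)) * (e * (T * L * W))) ≤ T / (2 * Real.pi) * L * W * (ε / 2) := by
      calc _ ≤ (2 / (Real.sqrt Real.pi * (β * L))) * (β * L * (R0 * (e * (T * L * W)))) :=
            mul_le_mul_of_nonneg_left g2 (by positivity)
        _ = 2 / Real.sqrt Real.pi * (R0 * (e * (T * L * W))) := by field_simp
        _ ≤ 2 * (R0 * (e * (T * L * W))) := by
            refine mul_le_mul_of_nonneg_right (div_le_self (by norm_num) hs1) (by positivity)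
        _ = T / (2 * Real.pi) * L * W * (4 * Real.pi * R0 * e) := by
            field_simp
            ring
        _ ≤ _ := mul_le_mul_of_nonneg_left he4 (by positivity)
    calc _ ≤ T / (2 * Real.pi) * L * W * (2 * c' + ε / 2) +
          T / (2 * Real.pi) * L * W * (ε / 2) := add_le_add g1 g3
      _ = _ := by ring
  · obtain ⟨P, hP⟩ : ∃ P, P = (1 + e) * 2 := ⟨_, rfl⟩
    have hP0 : 0 ≤ P := by rw [hP]; positivity
    have hP4 : P ≤ 4 := by rw [hP]; linarith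
    have hsW : 1 ≤ Real.sqrt W := Real.one_le_sqrt.2 hW1
    rw [← hP]
    have s2 : Real.sqrt (P * y1) = Real.sqrt P * Real.sqrt y1 := Real.sqrt_mul hP0 _
    have s3 : Real.sqrt (P * y2 + e * (L * W)) ≤
        Real.sqrt P * Real.sqrt y2 + Real.sqrt (e * (L * W)) := by
      refine (sqrt_add_le' _ _ (by positivity) (by positivity)).trans (le_of_eq ?_)
      rw [Real.sqrt_mul hP0]
    have s4 : Real.sqrt P * (Real.sqrt y1 + Real.sqrt y2) ≤
        Real.sqrt P * (ε / 8 * L * Real.sqrt W) :=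
      mul_le_mul_of_nonneg_left m5 (Real.sqrt_nonneg _)
    have s5 : Real.sqrt P ≤ 2 := by
      rw [Real.sqrt_le_left (by norm_num)]
      linarith
    have s6 : Real.sqrt (e * (L * W)) ≤ ε / 2 * L * Real.sqrt W := by
      rw [Real.sqrt_le_left (by positivity)]
      have h7 : L ≤ L ^ 2 := by nlinarith
      have h8 : Real.sqrt W ^ 2 = W := Real.sq_sqrt hW0.le
      calc e * (L * W) ≤ (ε ^ 2 / 4) * (L ^ 2 * W) := by gcongr
        _ = (ε / 2 * L) ^ 2 * W := by ring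
        _ = (ε / 2 * L) ^ 2 * Real.sqrt W ^ 2 := by rw [h8]
        _ = _ := by ring
    have s7 : Real.sqrt P * (ε / 8 * L * Real.sqrt W) ≤ 2 * (ε / 8 * L * Real.sqrt W) :=
      mul_le_mul_of_nonneg_right s5 (by positivity)
    rw [s2]
    have h8 : 0 ≤ ε * L * Real.sqrt W := by positivity
    nlinarith

end Pool.Agent.T4h70.LC
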